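import Pool.Agent.H20.ViscLemma

set_option autoImplicit false

namespace Pool.Agent.Results.MP_2d773b_an.NoContinuous

open Set

/-- `ℝⁿ` with its Euclidean norm. -/
abbrev E (n : ℕ) : Type := EuclideanSpace ℝ (Fin n)

variable {n d : ℕ}

/-- Frobenius norm of a matrix. -/
noncomputable def frob (A : Matrix (Fin n) (Fin d) ℝ) : ℝ :=
  Real.sqrt (∑ i, ∑ j, A i j ^ 2)

/-- The partial derivative `∂φ/∂x_i` at `(t, x)`. -/
noncomputable def dx (φ : ℝ × E n → ℝ) (i : Fin n) (t : ℝ) (x : E n) : ℝ :=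
  fderiv ℝ (fun y : E n => φ (t, y)) x (EuclideanSpace.single i 1)

/-- The second partial derivative `∂²φ/∂x_j∂x_i` at `(t, x)`. -/
noncomputable def dxx (φ : ℝ × E n → ℝ) (i j : Fin n) (t : ℝ) (x : E n) : ℝ :=
  fderiv ℝ (fun y : E n => dx φ i t y) x (EuclideanSpace.single j 1)

/-- The generator `b · ∇φ + ½ tr(σ σ* D²φ)` at `(t, x)`. -/
noncomputable def gen (b : ℝ → E n → E n) (σ : ℝ → E n → Matrix (Fin n) (Fin d) ℝ)
    (φ : ℝ × E n → ℝ) (t : ℝ) (x : E n) : ℝ :=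
  ∑ i, b t x i * dx φ i t x +
    1 / 2 * ∑ i, ∑ j, (σ t x * (σ t x).transpose) i j * dxx φ i j t x

/-- The vector `σ* ∇φ ∈ ℝᵈ` at `(t, x)`. -/
noncomputable def sgrad (σ : ℝ → E n → Matrix (Fin n) (Fin d) ℝ)
    (φ : ℝ × E n → ℝ) (t : ℝ) (x : E n) : E d :=
  WithLp.toLp 2 (fun j => ∑ i, σ t x i j * dx φ i t x)

/-- Hypothesis (A1), with joint continuity. -/
structure HypA1 (T : ℝ) (b : ℝ → E n → E n) (σ : ℝ → E n → Matrix (Fin n) (Fin d) ℝ) :
    Prop where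
  cont_b : ContinuousOn (fun q : ℝ × E n => b q.1 q.2) (Icc 0 T ×ˢ univ)
  cont_σ : ContinuousOn (fun q : ℝ × E n => σ q.1 q.2) (Icc 0 T ×ˢ univ)
  bound : ∃ K : ℝ, 0 < K ∧ ∀ t ∈ Icc 0 T, ∀ x x' : E n,
    ‖b t 0‖ + frob (σ t x) ≤ K ∧ ‖b t x - b t x'‖ + frob (σ t x - σ t x') ≤ K * ‖x - x'‖

/-- Hypotheses (G1) and (G2), with joint continuity, for the constants `k`, `α`, `p`;
here `α* = α / (α - 1)`. -/
structure HypG (T k α p : ℝ) (g : ℝ → E n → ℝ → E d → ℝ) (h : E n → ℝ) : Prop where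
  k_nonneg : 0 ≤ k
  one_lt : 1 < α
  le_two : α ≤ 2
  one_le : 1 ≤ p
  lt_conj : p < α / (α - 1)
  cont_g : ContinuousOn (fun q : ℝ × E n × ℝ × E d => g q.1 q.2.1 q.2.2.1 q.2.2.2)
    (Icc 0 T ×ˢ univ)
  cont_h : Continuous h
  G1 : ∀ t ∈ Icc 0 T, ∀ (x : E n) (y : ℝ) (z : E d),
    Real.sign y * g t x y z ≤ k * (1 + ‖x‖ ^ p + |y| + ‖z‖ ^ α)
  G2 : ∀ t ∈ Icc 0 T, ∀ (x : E n) (y : ℝ) (z : E d),
    |g t x y z| + |h x| ≤
      k * (1 + ‖x‖ ^ p + Real.exp (k * |y| ^ (2 / (α / (α - 1)))) + ‖z‖ ^ 2)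

/-- Continuous viscosity solutions of
`∂ₜu + ℒu + g(t,x,u,σ*∇u) = 0` on `[0,T] × ℝⁿ` with `u(T,·) = h`. -/
def IsViscositySolution (T : ℝ) (b : ℝ → E n → E n)
    (σ : ℝ → E n → Matrix (Fin n) (Fin d) ℝ) (g : ℝ → E n → ℝ → E d → ℝ) (h : E n → ℝ)
    (u : ℝ → E n → ℝ) : Prop :=
  ContinuousOn (fun q : ℝ × E n => u q.1 q.2) (Icc 0 T ×ˢ univ) ∧
  (∀ x, u T x = h x) ∧
  ∀ φ : ℝ × E n → ℝ, ContDiff ℝ ((⊤ : ℕ∞) : WithTop ℕ∞) φ → ∀ t₀ ∈ Ioo 0 T, ∀ x₀ : E n,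
    (IsLocalMin (fun q : ℝ × E n => u q.1 q.2 - φ q) (t₀, x₀) →
      deriv (fun t => φ (t, x₀)) t₀ + gen b σ φ t₀ x₀ +
        g t₀ x₀ (u t₀ x₀) (sgrad σ φ t₀ x₀) ≤ 0) ∧
    (IsLocalMax (fun q : ℝ × E n => u q.1 q.2 - φ q) (t₀, x₀) →
      0 ≤ deriv (fun t => φ (t, x₀)) t₀ + gen b σ φ t₀ x₀ +
        g t₀ x₀ (u t₀ x₀) (sgrad σ φ t₀ x₀))

/-- For all dimensions and every horizon the growth conditions do not suffice for the existence
of a continuous viscosity solution. -/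
theorem result : ∀ n d : ℕ, 0 < n → 0 < d → ∀ T : ℝ, 0 < T →
    ∃ (b : ℝ → E n → E n) (σ : ℝ → E n → Matrix (Fin n) (Fin d) ℝ)
      (g : ℝ → E n → ℝ → E d → ℝ) (h : E n → ℝ) (k α p : ℝ),
      HypA1 T b σ ∧ HypG T k α p g h ∧
      ¬ ∃ u : ℝ → E n → ℝ, IsViscositySolution T b σ g h u := by
  intro n d hn hd T hT
  set i : Fin n := ⟨0, hn⟩ with hi
  refine ⟨fun _ _ => 0, fun _ _ => 0, fun _ x y _ => Pool.Agent.H20.Visc.GG i x y, fun _ => 0,
    1, 2, 1, ⟨continuousOn_const, continuousOn_const, 1, one_pos, ?_⟩,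
    ⟨zero_le_one, one_lt_two, le_refl _, le_refl _, by norm_num, ?_, continuous_const, ?_, ?_⟩, ?_⟩
  · intro t _ x x'
    simp [frob]
  · exact ((Pool.Agent.H20.Visc.GG_cont i).comp
      (f := fun q : ℝ × E n × ℝ × E d => (q.2.1, q.2.2.1)) (by fun_prop)).continuousOn
  · intro t _ x y z
    have hx : |x i| ≤ ‖x‖ := by
      have := PiLp.norm_apply_le x i
      rwa [Real.norm_eq_abs] at this
    have hx1 := (abs_le.1 hx).1
    have hx2 := (abs_le.1 hx).2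
    have hz : (0 : ℝ) ≤ ‖z‖ ^ (2 : ℝ) := by positivity
    rw [Real.rpow_one, one_mul]
    unfold Pool.Agent.H20.Visc.GG
    rcases lt_trichotomy y 0 with hy | hy | hy
    · rw [Real.sign_of_neg hy, abs_of_neg hy, Real.sqrt_eq_zero_of_nonpos hy.le]
      have h1 := Real.sq_sqrt (show (0 : ℝ) ≤ -y by linarith)
      have h4 : 2 * Real.sqrt (-y) ≤ 1 + -y := by nlinarith [sq_nonneg (Real.sqrt (-y) - 1)]
      have h5 : -1 * (2 * (0 - Real.sqrt (-y)) + x i) = 2 * Real.sqrt (-y) - x i := by ring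
      rw [h5]
      refine le_trans ?_ (le_add_of_nonneg_right hz)
      linarith
    · rw [hy, Real.sign_zero, zero_mul, abs_zero]
      have := norm_nonneg x
      linarith
    · rw [Real.sign_of_pos hy, abs_of_pos hy,
        Real.sqrt_eq_zero_of_nonpos (show -y ≤ 0 by linarith)]
      have h1 := Real.sq_sqrt hy.le
      have h4 : 2 * Real.sqrt y ≤ 1 + y := by nlinarith [sq_nonneg (Real.sqrt y - 1)]
      have h5 : 1 * (2 * (Real.sqrt y - 0) + x i) = 2 * Real.sqrt y + x i := by ring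
      rw [h5]
      refine le_trans ?_ (le_add_of_nonneg_right hz)
      linarith
  · intro t _ x y z
    have hx : |x i| ≤ ‖x‖ := by
      have := PiLp.norm_apply_le x i
      rwa [Real.norm_eq_abs] at this
    have hz : (0 : ℝ) ≤ ‖z‖ ^ 2 := by positivity
    have he : |y| + 1 ≤ Real.exp |y| := Real.add_one_le_exp _
    have h2 : (2 : ℝ) / (2 / (2 - 1)) = 1 := by norm_num
    rw [Real.rpow_one, one_mul, one_mul, h2, Real.rpow_one, abs_zero, add_zero]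
    unfold Pool.Agent.H20.Visc.GG
    have h3 : |2 * (Real.sqrt y - Real.sqrt (-y))| ≤ 1 + |y| := by
      rcases le_total y 0 with hy | hy
      · rw [Real.sqrt_eq_zero_of_nonpos hy, abs_of_nonpos hy]
        have h1 := Real.sq_sqrt (show (0 : ℝ) ≤ -y by linarith)
        have h4 := Real.sqrt_nonneg (-y)
        rw [abs_of_nonpos (by linarith)]
        nlinarith [sq_nonneg (Real.sqrt (-y) - 1)]
      · rw [Real.sqrt_eq_zero_of_nonpos (show -y ≤ 0 by linarith), abs_of_nonneg hy]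
        have h1 := Real.sq_sqrt hy
        have h4 := Real.sqrt_nonneg y
        rw [abs_of_nonneg (by linarith)]
        nlinarith [sq_nonneg (Real.sqrt y - 1)]
    have h4 := abs_add_le (2 * (Real.sqrt y - Real.sqrt (-y))) (x i)
    linarith
  · rintro ⟨u, hu, hterm, hvisc⟩
    have hgen : ∀ (φ : ℝ × E n → ℝ) (t : ℝ) (x : E n),
        gen (fun _ _ => 0) (fun _ _ => (0 : Matrix (Fin n) (Fin d) ℝ)) φ t x = 0 := by
      intro φ t x
      simp [gen]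
    refine Pool.Agent.H20.Visc.no_solution hT i hu hterm ?_ ?_
    · intro φ hφ t₀ ht₀ x₀ hmin
      have := (hvisc φ hφ t₀ ht₀ x₀).1 hmin
      rw [hgen, add_zero] at this
      exact this
    · intro φ hφ t₀ ht₀ x₀ hmax
      have := (hvisc φ hφ t₀ ht₀ x₀).2 hmax
      rw [hgen, add_zero] at this
      exact this

end Pool.Agent.Results.MP_2d773b_an.NoContinuous
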